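import Pool.Agent.H.MP_1fb4c7_an.Def

set_option autoImplicit false

namespace Pool.Agent.H.MP_1fb4c7_an

open Filter Topology Finset
open scoped ComplexOrder

variable {A : Type} [CStarAlgebra A]

lemma nle (τ : WeakDual ℂ A) (x : A) : ‖τ x‖ ≤ ‖WeakDual.toStrongDual τ‖ * ‖x‖ :=
  (WeakDual.toStrongDual τ).le_opNorm x

lemma pos_le (τ : WeakDual ℂ A) (h : ∀ x, 0 ≤ τ (star x * x)) (x : A) :
    ‖τ x‖ ≤ (τ 1).re * ‖x‖ := by
  let := CStarAlgebra.spectralOrder A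
  have := CStarAlgebra.spectralOrderedRing A
  let f : A →ₚ[ℂ] ℂ := .mk₀ (WeakDual.toStrongDual τ).toLinearMap fun x hx => by
    obtain ⟨y, rfl⟩ := CStarAlgebra.nonneg_iff_eq_star_mul_self.1 hx
    exact h y
  have key : ∀ y : A, (τ y).re ≤ (τ 1).re * ‖y‖ := fun y => by
    have h1 := f.apply_le_of_isSelfAdjoint (y + star y) (.add_star_self y)
    have h2 : f (star y) = star (f y) := map_star f y
    have h3 : f (algebraMap ℝ A ‖y + star y‖) = ‖y + star y‖ * τ 1 := by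
      rw [Algebra.algebraMap_eq_smul_one, ← Complex.coe_smul, map_smul]; rfl
    rw [map_add, h2, h3] at h1
    have h4 := (Complex.le_def.1 h1).1
    have h5 : ‖y + star y‖ ≤ 2 * ‖y‖ := (norm_add_le _ _).trans (by rw [norm_star]; linarith)
    have h6 : 0 ≤ (τ 1).re := by simpa using (Complex.le_def.1 (h 1)).1
    have h7 : f y = τ y := rfl
    simp only [h7, Complex.add_re, Complex.star_def, Complex.conj_re, Complex.re_ofReal_mul] at h4
    nlinarith
  obtain ⟨c, hc, e⟩ := Complex.exists_norm_eq_mul_self (τ x)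
  have := key (c • x)
  rw [map_smul, smul_eq_mul, ← e, norm_smul, hc, one_mul] at this
  simpa using this

lemma cpt [Nontrivial A] : IsCompact (T A) := by
  have e : T A = WeakDual.toStrongDual ⁻¹' Metric.closedBall 0 1 ∩ ({τ | τ 1 = 1} ∩
      ((⋂ x, {τ | 0 ≤ τ (star x * x)}) ∩ ⋂ x, ⋂ y, {τ | τ (x * y) = τ (y * x)})) := by
    ext τ
    simp only [T, Set.mem_ofPred_eq, Set.mem_inter_iff, Set.mem_preimage, mem_closedBall_zero_iff,
      Set.mem_iInter]
    refine ⟨fun ⟨h1, h2, h3⟩ => ⟨h1.le, ?_, h2, h3⟩, fun ⟨h1, h0, h2, h3⟩ =>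
      ⟨h1.antisymm (by simpa [h0] using nle τ 1), h2, h3⟩⟩
    have a1 := Complex.le_def.1 (h2 1)
    have a2 : ‖WeakDual.toStrongDual τ‖ ≤ (τ 1).re :=
      ContinuousLinearMap.opNorm_le_bound _ (by simpa using a1.1) (pos_le τ h2)
    have a3 := (Complex.re_le_norm _).trans (nle τ 1)
    rw [h1] at a2 a3
    exact Complex.ext (by simp at a3 ⊢; linarith) (by simpa using a1.2.symm)
  rw [e]
  refine (WeakDual.isCompact_closedBall 0 1).inter_right
    ((isClosed_eq (WeakDual.eval_continuous _) continuous_const).inter (IsClosed.inter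
      (isClosed_iInter fun x => isClosed_le continuous_const (WeakDual.eval_continuous _))
      (isClosed_iInter fun x => isClosed_iInter fun y =>
        isClosed_eq (WeakDual.eval_continuous _) (WeakDual.eval_continuous _))))

lemma le_n2 (a : A) (τ : T A) : √(τ.1 (star a * a)).re ≤ n2 a :=
  le_ciSup (f := fun τ : T A => √(τ.1 (star a * a)).re) ⟨√‖star a * a‖, by
    rintro _ ⟨σ, rfl⟩
    exact Real.sqrt_le_sqrt ((Complex.re_le_norm _).trans (by simpa [σ.2.1] using nle σ.1 _))⟩ τ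

/-- matrices -/
abbrev Mt (n : ℕ) := CStarMatrix (Fin (n + 2)) (Fin (n + 2)) ℂ

lemma extr {n : ℕ} (π : A →⋆ₐ[ℂ] Mt n) : ∃ τ : T A, ∀ a,
    ‖π a 0 0‖ ^ 2 ≤ (n + 2) * (τ.1 (star a * a)).re := by
  have hn : (0 : ℝ) < n + 2 := by positivity
  have hc : (n + 2 : ℂ) ≠ 0 := by exact_mod_cast hn.ne'
  have b1 : ∀ a i j, ‖π a i j‖ ≤ ‖a‖ := fun a i j =>
    CStarMatrix.norm_entry_le_norm.trans (NonUnitalStarAlgHom.norm_apply_le π a)
  let L : A →ₗ[ℂ] ℂ := ⟨⟨fun a => (∑ i, π a i i) / (n + 2), fun a b => by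
    simp [sum_add_distrib, add_div]⟩, fun c a => by simp [← mul_sum, mul_div_assoc]⟩
  have L1 : ∀ a, L a = (∑ i, π a i i) / (n + 2) := fun _ => rfl
  have b2 : ∀ a, ‖L a‖ ≤ 1 * ‖a‖ := fun a => by
    have : ‖(n + 2 : ℂ)‖ = n + 2 := by exact_mod_cast Complex.norm_natCast (n + 2)
    rw [L1, norm_div, this, div_le_iff₀ hn]
    refine (norm_sum_le _ _).trans ((sum_le_sum fun i _ => b1 a i i).trans ?_)
    simp [mul_comm]
  have L2 : ∀ a, L (star a * a) = ((∑ i, ∑ l, ‖π a l i‖ ^ 2 : ℝ) / (n + 2) : ℝ) := fun a => by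
    rw [L1]
    simp [CStarMatrix.mul_apply, CStarMatrix.star_apply, map_star, Complex.conj_mul']
  have o : L 1 = 1 := by simp [L1, hc]
  let τ : WeakDual ℂ A := StrongDual.toWeakDual (L.mkContinuous 1 b2)
  have τ1 : ∀ a, τ a = L a := fun _ => rfl
  have : Nontrivial A := ⟨1, 0, fun h => by simp [h] at o⟩
  refine ⟨⟨τ, le_antisymm (L.mkContinuous_norm_le zero_le_one b2) ?_, fun a => ?_, fun a b => ?_⟩,
    fun a => ?_⟩
  · simpa [τ1, o] using nle τ 1
  · rw [τ1, L2]; positivity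
  · simp only [τ1, L1, map_mul, CStarMatrix.mul_apply]
    rw [sum_comm]; simp [mul_comm]
  · simp only [τ1, L2, Complex.ofReal_re]
    rw [mul_div_cancel₀ _ hn.ne']
    exact (single_le_sum (f := fun l => ‖π a l 0‖ ^ 2) (fun _ _ => by positivity)
      (mem_univ 0)).trans (single_le_sum (f := fun i => ∑ l, ‖π a l i‖ ^ 2)
        (fun _ _ => by positivity) (mem_univ 0))

lemma ent_le {n : ℕ} (π : A →⋆ₐ[ℂ] Mt n) (a : A) : ‖π a 0 0‖ ≤ (n + 2) * n2 a := by
  obtain ⟨τ, h⟩ := extr π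
  have h1 := le_n2 a τ
  have h2 := Real.sq_sqrt (by simpa using (Complex.le_def.1 (τ.2.2.1 a)).1 :
    0 ≤ (τ.1 (star a * a)).re)
  have h3 := Real.sqrt_nonneg (τ.1 (star a * a)).re
  have h4 := h a
  have hn : (0 : ℝ) ≤ n := by positivity
  refine abs_le_of_sq_le_sq' (h4.trans ?_) (by nlinarith) |>.2
  rw [← h2, mul_pow]
  gcongr
  nlinarith

theorem abs {S : ℕ → Type} (π : ∀ n, S n → A →⋆ₐ[ℂ] Mt n)
    (bu : ∀ n (F : Finset A), F.card ≤ n → ∃ s, ∀ a ∈ F, ∀ l : Fin (n + 1), π n s a 0 l.succ = 0)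
    (p : ℕ → A) (p1 : ∀ n s m, π n s (p m) 0 0 = if m = n then 1 else 0)
    (p2 : ∀ G : Finset ℕ, ‖∑ n ∈ G, p n‖ ≤ 1)
    (p3 : ∀ (G : Finset ℕ) (m : ℕ), (∀ n ∈ G, m ≤ n) → n2 (∑ n ∈ G, p n) ≤ √(1 / (m + 1))) :
    ∃ φ : (ℕ → A) → ℂ, IsTr φ ∧
      ∀ ε > 0, ∃ x, Cau x ∧ (∀ j, ‖x j‖ ≤ 1 ∧ n2 (x j) ≤ ε) ∧ φ x = 1 := by
  classical
  let Z := (ℕ → A) × (ℕ → ℕ) × ℕ
  let N : Finset Z → ℕ := fun F => F.card + F.sup fun z => z.2.2
  let J : Finset Z → ℕ := fun F => F.sup fun z => z.2.1 (N F)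
  choose s hs using fun F : Finset Z => bu (N F) (F.image fun z => z.1 (J F))
    (card_image_le.trans (Nat.le_add_right _ _))
  let U := Ultrafilter.of (atTop : Filter (Finset Z))
  have ev : ∀ (x : ℕ → A) (g : ℕ → ℕ) (m : ℕ), ∀ᶠ F in U, (∀ l : Fin (N F + 1),
      π (N F) (s F) (x (J F)) 0 l.succ = 0) ∧ g (N F) ≤ J F ∧ m ≤ N F := fun x g m =>
    Ultrafilter.of_le atTop ((eventually_ge_atTop {(x, g, m)}).mono fun F hF => by
      have hz : (x, g, m) ∈ F := hF (mem_singleton_self _)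
      exact ⟨hs F _ (mem_image_of_mem _ hz), le_sup (f := fun z : Z => z.2.1 (N F)) hz,
        (le_sup (f := fun z : Z => z.2.2) hz).trans (Nat.le_add_left _ _)⟩)
  let e : (ℕ → A) → Finset Z → ℂ := fun x F => π (N F) (s F) (x (J F)) 0 0
  have b1 : ∀ x M, (∀ j, ‖x j‖ ≤ M) → ∀ F, ‖e x F‖ ≤ M := fun x M h F =>
    (CStarMatrix.norm_entry_le_norm (M := π (N F) (s F) (x (J F)))).trans
      ((NonUnitalStarAlgHom.norm_apply_le _ _).trans (h _))
  let φ : (ℕ → A) → ℂ := fun x => limUnder U (e x)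
  have t0 : ∀ x c, Tendsto (e x) U (𝓝 c) → φ x = c := fun x c h => h.limUnder_eq
  have t1 : ∀ x, Cau x → Tendsto (e x) U (𝓝 (φ x)) := fun x ⟨⟨M, hM⟩, _⟩ => by
    obtain ⟨c, -, h⟩ := (isCompact_closedBall (0 : ℂ) M).ultrafilter_le_nhds (U.map (e x))
      (le_principal_iff.2 (mem_map.2 <| univ_mem' fun F =>
        mem_closedBall_zero_iff.2 (b1 x M hM F)))
    rw [t0 x c h]; exact h
  have t2 : ∀ x y c d, Tendsto (e x) U (𝓝 c) → Tendsto (e y) U (𝓝 d) → φ (x * y) = c * d :=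
    fun x y c d hx hy => t0 _ _ ((hx.mul hy).congr' ((ev x 0 0).mono fun F hF => by
      simp [e, CStarMatrix.mul_apply, Fin.sum_univ_succ, hF.1]))
  have sm : ∀ ε > 0, ∃ m : ℕ, √(1 / (m + 1)) < ε := fun ε hε => by
    obtain ⟨m, hm⟩ := exists_nat_one_div_lt (sq_pos_of_pos hε)
    exact ⟨m, (Real.sqrt_lt' hε).2 hm⟩
  refine ⟨φ, ⟨fun x y hx hy => ⟨t0 _ _ (((t1 x hx).add (t1 y hy)).congr fun F => by simp [e]),
    by rw [t2 _ _ _ _ (t1 x hx) (t1 y hy), t2 _ _ _ _ (t1 y hy) (t1 x hx), mul_comm]⟩,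
    fun x hx => ⟨fun c => t0 _ _ (((t1 x hx).const_mul c).congr fun F => by simp [e]), ?_,
      fun M hM => le_of_tendsto' (t1 x hx).norm (b1 x M hM)⟩,
    t0 _ _ (tendsto_const_nhds.congr fun F => by simp [e]), fun x hx => t0 _ _ ?_⟩, fun ε hε => ?_⟩
  · rw [t2 (star x) x (star (φ x)) _ ((t1 x hx).star.congr fun F => by
      simp [e, map_star, CStarMatrix.star_apply]) (t1 x hx)]
    exact star_mul_self_nonneg _
  · refine Metric.tendsto_nhds.2 fun ε hε => ?_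
    choose g hg using fun n : ℕ => eventually_atTop.1
      (hx.2.eventually (gt_mem_nhds (by positivity : 0 < ε / (n + 2))))
    refine (ev x g 0).mono fun F hF => ?_
    rw [dist_zero_right]
    exact (ent_le _ _).trans_lt ((lt_div_iff₀' (by positivity)).1 (hg _ _ hF.2.1))
  · obtain ⟨m, hm⟩ := sm ε hε
    refine ⟨fun j => ∑ n ∈ Ico m j, p n, ⟨⟨1, fun j => p2 _⟩, fun δ hδ => ?_⟩,
      fun j => ⟨p2 _, (p3 _ m fun n hn => (mem_Ico.1 hn).1).trans hm.le⟩,
      t0 (fun j => ∑ n ∈ Ico m j, p n) 1 ?_⟩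
    · obtain ⟨k, hk⟩ := sm δ hδ
      have w : ∀ i j, max m k ≤ j → j ≤ i → n2 (∑ n ∈ Ico m i, p n - ∑ n ∈ Ico m j, p n) < δ :=
        fun i j hj hi => by
          rw [← sum_Ico_consecutive _ ((le_max_left _ _).trans hj) hi, add_sub_cancel_left]
          exact (p3 _ k fun n hn => ((le_max_right _ _).trans hj).trans (mem_Ico.1 hn).1).trans_lt hk
      refine ⟨max m k, fun i hi j hj => (le_total j i).elim (w i j hj) fun h => ?_⟩
      have := w j i hi h
      rw [← neg_sub, n2] at this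
      simpa only [star_neg, neg_mul_neg, n2] using this
    · refine tendsto_const_nhds.congr' ((ev 0 (· + 1) m).mono fun F hF => ?_)
      have : ∀ (G : Finset ℕ) n s, π n s (∑ k ∈ G, p k) 0 0 = ∑ k ∈ G, π n s (p k) 0 0 :=
        fun G n s => by
          induction G using Finset.induction_on with
          | empty => simp
          | insert a G h ih => simp [sum_insert h, ← ih]
      simp only [e, this, p1, sum_ite_eq', mem_Ico]
      rw [if_pos ⟨hF.2.2, hF.2.1⟩]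

end Pool.Agent.H.MP_1fb4c7_an
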