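import Pool.Agent.H.MP_1fb4c7_an.A
import Pool.Agent.Lib.helper9.BorsukUlam

set_option autoImplicit false

namespace Pool.Agent.H.MP_1fb4c7_an

open Filter Topology Finset
open scoped ComplexOrder ENNReal

/-- spheres -/
abbrev Sp (n : ℕ) := Metric.sphere (0 : EuclideanSpace ℝ (Fin (n * (n + 1) * 2 + 1))) 1

/-- matrix units -/
noncomputable def eu {n : ℕ} (i j : Fin (n + 2)) : Mt n := CStarMatrix.ofMatrix (Matrix.single i j 1)

lemma eu_apply {n : ℕ} (i j k l : Fin (n + 2)) : eu i j k l = if i = k ∧ j = l then 1 else 0 := rfl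

lemma eu_star {n : ℕ} (i j : Fin (n + 2)) : star (eu i j) = eu j i := by
  ext k l
  simp only [CStarMatrix.star_apply, eu_apply, and_comm]
  split_ifs <;> simp

lemma eu_mul {n : ℕ} (i j k : Fin (n + 2)) : eu i j * eu j k = eu i k := by
  ext a b
  simp only [CStarMatrix.mul_apply, eu_apply]
  rw [sum_eq_single j (fun c _ h => by simp [h.symm]) (by simp)]
  by_cases h : i = a <;> simp [h]

lemma eu_sum {n : ℕ} : eu 0 0 + ∑ j : Fin (n + 1), eu j.succ j.succ = (1 : Mt n) := by
  rw [← Fin.sum_univ_succ (fun j : Fin (n + 2) => eu j j)]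
  exact Matrix.sum_single_one

lemma sq1 {n : ℕ} (s : Sp n) : ∑ i, s.1 i * s.1 i = 1 := by
  have := EuclideanSpace.real_norm_sq_eq s.1
  rw [norm_eq_of_mem_sphere s] at this
  simpa [sq] using this.symm

variable {A : Type} [CStarAlgebra A]

lemma prj {a : A} (h : star a * a = a) : ‖a‖ ≤ 1 := by
  have := CStarRing.norm_star_mul_self (x := a)
  rw [h] at this
  nlinarith [norm_nonneg a]

theorem abs2 (π : ∀ n, Sp n → A →⋆ₐ[ℂ] Mt n) (ext : ∀ a b, (∀ n s, π n s a = π n s b) → a = b)
    (ct : ∀ n a, Continuous fun s => π n s a)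
    (od : ∀ n s a (l : Fin (n + 1)), π n (-s) a 0 l.succ = -π n s a 0 l.succ)
    (v : ∀ n, Fin (n * (n + 1) * 2 + 1) → Fin (n + 1) → A)
    (v1 : ∀ n s i j, π n s (v n i j) = s.1 i • eu 0 j.succ)
    (v2 : ∀ m n s i j, n ≠ m → π m s (v n i j) = 0) :
    ∃ φ : (ℕ → A) → ℂ, IsTr φ ∧
      ∀ ε > 0, ∃ x, Cau x ∧ (∀ j, ‖x j‖ ≤ 1 ∧ n2 (x j) ≤ ε) ∧ φ x = 1 := by
  classical
  let p : ℕ → A := fun n => ∑ i, v n i 0 * star (v n i 0)
  let q : ∀ n, Fin (n + 1) → A := fun n j => ∑ i, star (v n i j) * v n i j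
  have a1 : ∀ m n s j, π m s (∑ i, v n i j * star (v n i j)) = if n = m then eu 0 0 else 0 :=
    fun m n s j => by
      split_ifs with h
      · subst h
        simp [v1, map_star, eu_star, eu_mul, smul_smul, ← sum_smul, sq1]
      · simp [v2 _ _ _ _ _ h]
  have a2 : ∀ m n s, π m s (p n + ∑ j, q n j) = if n = m then 1 else 0 := fun m n s => by
    rw [map_add, a1]
    split_ifs with h
    · subst h
      simp [q, v1, map_star, eu_star, eu_mul, smul_smul, ← sum_smul, sq1, eu_sum]
    · simp [q, v2 _ _ _ _ _ h]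
  have a3 : ∀ G : Finset ℕ, star (∑ n ∈ G, p n) * ∑ n ∈ G, p n = ∑ n ∈ G, p n := fun G =>
    ext _ _ fun m s => by
      rw [map_mul, map_star, map_sum]
      simp only [p, a1, sum_ite_eq']
      split_ifs <;> simp [eu_star, eu_mul]
  have a4 : ∀ G : Finset ℕ, ‖∑ n ∈ G, (p n + ∑ j, q n j)‖ ≤ 1 := fun G =>
    prj <| ext _ _ fun m s => by
      rw [map_mul, map_star, map_sum]
      simp only [a2, sum_ite_eq']
      split_ifs <;> simp
  have a5 : ∀ (τ : T A) n, τ.1 (p n + ∑ j, q n j) = (n + 2) * τ.1 (p n) := fun τ n => by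
    have : ∀ j, τ.1 (q n j) = τ.1 (p n) := fun j => by
      rw [show p n = ∑ i, v n i j * star (v n i j) from ext _ _ fun m s => by rw [a1, a1]]
      simp only [q, map_sum]
      exact sum_congr rfl fun i _ => τ.2.2.2 _ _
    simp only [map_add, map_sum, this, sum_const, card_univ, Fintype.card_fin, nsmul_eq_mul]
    push_cast
    ring
  have a6 : ∀ (τ : T A) n, 0 ≤ (τ.1 (p n)).re := fun τ n => by
    have := τ.2.2.1 (∑ k ∈ {n}, p k)
    rw [a3, sum_singleton] at this
    simpa using (Complex.le_def.1 this).1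
  refine abs π (fun n F hF => ?_) p (fun n s m => ?_) (fun G => prj (a3 G)) fun G m hG => ?_
  · obtain ⟨x, hx, h⟩ := Pool.Agent.Lib.helper9.BorsukUlam.borsuk_ulam
      (E := EuclideanSpace ℝ (Fin (n * (n + 1) * 2 + 1))) (F := F × Fin (n + 1) → ℂ)
      (Or.inr (by
        simp only [Module.finrank_pi_fintype, Complex.finrank_real_complex, sum_const, card_univ,
          Fintype.card_prod, Fintype.card_coe, Fintype.card_fin, smul_eq_mul,
          finrank_euclideanSpace]
        exact Nat.lt_succ_of_le (by gcongr)))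
      (fun x t => if h : ‖x‖ = 1 then π n ⟨x, by simpa using h⟩ t.1 0 t.2.succ else 0)
      (by
        rw [continuousOn_iff_continuous_domRestrict]
        refine continuous_pi fun t => ?_
        have : Continuous fun x : {x : EuclideanSpace ℝ (Fin (n * (n + 1) * 2 + 1)) | ‖x‖ = 1} =>
            π n ⟨x.1, mem_sphere_zero_iff_norm.2 x.2⟩ t.1 0 t.2.succ :=
          (continuous_apply_apply 0 t.2.succ).comp ((ct n t.1).comp
            (continuous_subtype_val.subtype_mk _))
        exact this.congr fun x => by simp [show ‖x.1‖ = 1 from x.2])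
      fun x hx => funext fun t => by
        rw [Pi.neg_apply, dif_pos hx, dif_pos (by simpa using hx), ← od]
        rfl
    exact ⟨⟨x, by simpa using hx⟩, fun a ha l => by simpa [hx] using congrFun h (⟨a, ha⟩, l)⟩
  · simp only [p, a1]
    split_ifs <;> simp [eu_apply]
  · obtain ⟨τ, -⟩ := extr (π 0 ⟨EuclideanSpace.single 0 1, by simp⟩)
    have : Nonempty (T A) := ⟨τ⟩
    refine ciSup_le fun τ => Real.sqrt_le_sqrt ?_
    have := (Complex.re_le_norm _).trans (nle τ.1 (∑ n ∈ G, (p n + ∑ j, q n j)))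
    rw [τ.2.1, one_mul, map_sum, Complex.re_sum] at this
    rw [a3, le_div_iff₀' (by positivity), map_sum, Complex.re_sum, mul_sum]
    refine le_trans (sum_le_sum fun n hn => ?_) (this.trans (a4 G))
    have h1 : (m : ℝ) ≤ n := by exact_mod_cast hG n hn
    have h2 := a6 τ n
    rw [a5]
    simp only [Complex.mul_re, Complex.add_re, Complex.natCast_re, Complex.re_ofNat,
      Complex.add_im, Complex.natCast_im, Complex.im_ofNat, add_zero, zero_mul, sub_zero]
    nlinarith

instance (n : ℕ) : Nonempty (Sp n) := ⟨⟨EuclideanSpace.single 0 1, by simp⟩⟩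

/-- the fibres -/
def Fb (n : ℕ) : Type := C(Sp n, Mt n)

noncomputable instance (n : ℕ) : CStarAlgebra (Fb n) := inferInstanceAs (CStarAlgebra C(Sp n, Mt n))

instance (n : ℕ) : Nontrivial (Fb n) := ⟨(1 : C(Sp n, Mt n)), (0 : C(Sp n, Mt n)), fun h => by
  have := congrArg (fun f : C(Sp n, Mt n) => f (Classical.arbitrary _) 0 0) h
  simp at this⟩

noncomputable instance {I : Type} {B : I → Type} [∀ i, Nontrivial (B i)]
    [∀ i, CStarAlgebra (B i)] : CStarAlgebra (lp B ∞) where

/-- the product -/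
noncomputable abbrev Pr := lp Fb ∞

/-- evaluation -/
noncomputable def ev (n : ℕ) (s : Sp n) : Pr →⋆ₐ[ℂ] Mt n where
  toFun a := (show C(Sp n, Mt n) from a n) s
  map_one' := rfl
  map_mul' _ _ := rfl
  map_zero' := rfl
  map_add' _ _ := rfl
  commutes' _ := rfl
  map_star' _ := rfl

/-- generators -/
noncomputable def gen (t : Σ n, Fin (n * (n + 1) * 2 + 1) × Fin (n + 1)) : Pr :=
  lp.single ∞ t.1 ⟨fun s => s.1 t.2.1 • eu 0 t.2.2.succ, by fun_prop⟩

/-- signs -/
def sg {n : ℕ} (i : Fin (n + 2)) : ℂ := if i = 0 then 1 else -1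

lemma sg_sq {n : ℕ} (i : Fin (n + 2)) : sg i * sg i = 1 := by unfold sg; split_ifs <;> simp

/-- equivariant elements -/
def Eqv : StarSubalgebra ℂ Pr where
  carrier := {a | ∀ n s i j, ev n (-s) a i j = sg i * sg j * ev n s a i j}
  mul_mem' {a b} ha hb n s i j := by
    simp only [map_mul, CStarMatrix.mul_apply, ha n s, hb n s, mul_sum]
    exact sum_congr rfl fun k _ => by
      linear_combination sg i * sg j * ev n s a i k * ev n s b k j * sg_sq k
  add_mem' {a b} ha hb n s i j := by simp [ha n s, hb n s, mul_add]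
  algebraMap_mem' c n s i j := by
    simp only [AlgHomClass.commutes, CStarMatrix.algebraMap_apply]
    split_ifs with h <;> simp [h, sg_sq]
  star_mem' {a} ha n s i j := by
    have : ∀ i : Fin (n + 2), star (sg i) = sg i := fun i => by unfold sg; split_ifs <;> simp
    simp only [map_star, CStarMatrix.star_apply, ha n s, star_mul, this]
    ring

lemma cl_Eqv : IsClosed (Eqv : Set Pr) := by
  have c : ∀ n s i j, Continuous fun a : Pr => ev n s a i j := fun n s i j =>
    (continuous_apply_apply i j).comp (show Continuous (ev n s : Pr → Mt n) from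
      AddMonoidHomClass.continuous_of_bound (ev n s) 1 fun a => by
        simpa using NonUnitalStarAlgHom.norm_apply_le (ev n s) a)
  simp only [Eqv, SetLike.coe, Set.ofPred_forall]
  exact isClosed_iInter fun n => isClosed_iInter fun s => isClosed_iInter fun i =>
    isClosed_iInter fun j => isClosed_eq (c _ _ _ _) (continuous_const.mul (c _ _ _ _))

lemma gen1 (n s i j) : ev n s (gen ⟨n, i, j⟩) = s.1 i • eu 0 j.succ := by
  simp [ev, gen]

lemma gen2 (m n s i j) (h : n ≠ m) : ev m s (gen ⟨n, i, j⟩) = 0 := by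
  simp [ev, gen, lp.single_apply, Pi.single_eq_of_ne h.symm]
  rfl

/-- the example -/
noncomputable def Alg : StarSubalgebra ℂ Pr :=
  (StarAlgebra.adjoin ℂ (Set.range gen)).topologicalClosure

lemma Alg_le : Alg ≤ Eqv := by
  refine StarSubalgebra.topologicalClosure_minimal (StarAlgebra.adjoin_le ?_) cl_Eqv
  rintro _ ⟨⟨n, i, j⟩, rfl⟩ m s k l
  rcases eq_or_ne n m with rfl | h
  · simp only [gen1, CStarMatrix.smul_apply, eu_apply]
    split_ifs with h
    · obtain ⟨rfl, rfl⟩ := h
      simp [sg]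
    · simp
  · simp [gen2 _ _ _ _ _ h]

lemma Alg_sep : TopologicalSpace.SeparableSpace Alg := by
  refine TopologicalSpace.IsSeparable.separableSpace (TopologicalSpace.IsSeparable.closure ?_)
  have : (StarAlgebra.adjoin ℂ (Set.range gen) : Set Pr) = Submodule.span ℂ
      (Submonoid.closure (Set.range gen ∪ star (Set.range gen)) : Set Pr) := by
    rw [← Algebra.adjoin_eq_span]; rfl
  rw [this, Submonoid.closure_eq_image_prod]
  refine (Set.Countable.image ?_ _).isSeparable.span
  have h : (Set.range gen ∪ star (Set.range gen)).Countable :=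
    (Set.countable_range _).union ((Set.countable_range _).preimage star_injective)
  have := h.to_subtype
  refine (Set.countable_range (List.map
    (Subtype.val : ↥(Set.range gen ∪ star (Set.range gen)) → Pr))).mono fun l hl => ?_
  exact ⟨l.pmap Subtype.mk hl, by simp [List.map_pmap]⟩

theorem main : ∃ (A : Type) (_ : CStarAlgebra A), TopologicalSpace.SeparableSpace A ∧
    (T A).Nonempty ∧ IsCompact (T A) ∧ ∃ φ : (ℕ → A) → ℂ, IsTr φ ∧
      ∀ ε > 0, ∃ x, Cau x ∧ (∀ j, ‖x j‖ ≤ 1 ∧ n2 (x j) ≤ ε) ∧ φ x = 1 := by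
  have : IsClosed (Alg : Set Pr) := StarSubalgebra.isClosed_topologicalClosure _
  obtain ⟨τ, -⟩ := extr ((ev 0 (Classical.arbitrary _)).comp Alg.subtype)
  have : Nontrivial Alg := ⟨1, 0, fun h => by
    simpa using congrArg (fun a => ((ev 0 (Classical.arbitrary _)).comp Alg.subtype) a 0 0) h⟩
  exact ⟨Alg, inferInstance, Alg_sep, ⟨τ, τ.2⟩, cpt, abs2 (fun n s => (ev n s).comp Alg.subtype)
    (fun a b h => Subtype.ext (lp.ext (funext fun n => ContinuousMap.ext (h n))))
    (fun n a => (a.1 n).continuous) (fun n s a l => by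
      simpa [sg] using Alg_le a.2 n s 0 l.succ)
    (fun n i j => ⟨gen ⟨n, i, j⟩, StarSubalgebra.le_topologicalClosure _
      (StarAlgebra.subset_adjoin ℂ _ ⟨_, rfl⟩)⟩) gen1 gen2⟩

end Pool.Agent.H.MP_1fb4c7_an
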