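import Mathlib

set_option autoImplicit false

namespace Pool.Agent.H.MP_1fb4c7_an

open Filter Topology
open scoped ComplexOrder

variable {A : Type} [CStarAlgebra A]

variable (A) in
/-- The tracial states, in the weak star dual. -/
def T : Set (WeakDual ℂ A) := {τ | ‖WeakDual.toStrongDual τ‖ = 1 ∧
  (∀ x, 0 ≤ τ (star x * x)) ∧ ∀ x y, τ (x * y) = τ (y * x)}

/-- The uniform 2-seminorm. -/
noncomputable def n2 (a : A) : ℝ := ⨆ τ : T A, √(τ.1 (star a * a)).re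

/-- Norm bounded sequences that are Cauchy for the uniform 2-seminorm. -/
def Cau (x : ℕ → A) : Prop :=
  (∃ M, ∀ j, ‖x j‖ ≤ M) ∧ ∀ ε > 0, ∃ N, ∀ i ≥ N, ∀ j ≥ N, n2 (x i - x j) < ε

/-- Norm bounded sequences that tend to zero in the uniform 2-seminorm. -/
def Null (x : ℕ → A) : Prop := (∃ M, ∀ j, ‖x j‖ ≤ M) ∧ Tendsto (fun j => n2 (x j)) atTop (𝓝 0)

/-- A tracial state on the Cauchy sequences that vanishes on the null sequences. -/
def IsTr (φ : (ℕ → A) → ℂ) : Prop :=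
  (∀ x y, Cau x → Cau y → φ (x + y) = φ x + φ y ∧ φ (x * y) = φ (y * x)) ∧
  (∀ x, Cau x → (∀ c : ℂ, φ (c • x) = c * φ x) ∧ 0 ≤ φ (star x * x) ∧
    ∀ M, (∀ j, ‖x j‖ ≤ M) → ‖φ x‖ ≤ M) ∧
  φ 1 = 1 ∧ ∀ x, Null x → φ x = 0

end Pool.Agent.H.MP_1fb4c7_an
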